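import Mathlib

/-!
# Rooted bipartite quadrangulations up to isomorphism (definitions for MP_72bf75_co)
-/

set_option autoImplicit false

namespace Pool.H44.QEX

/-- A rooted bipartite quadrangulation with `n` faces and genus `g`, given on the `4 n` darts
(oriented edges): `σ` is the rotation around the starting vertices, `α` reverses the darts. -/
structure RQuad (n g : ℕ) where
  /-- rotation: the vertices are its cycles -/
  σ : Equiv.Perm (Fin (4 * n))
  /-- reversal: the edges are its cycles -/
  α : Equiv.Perm (Fin (4 * n))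
  /-- the distinguished dart -/
  root : Fin (4 * n)
  edges : ∀ d, α (α d) = d ∧ α d ≠ d
  connected : ∀ d e, ∃ w ∈ Subgroup.closure ({σ, α} : Set (Equiv.Perm (Fin (4 * n)))), w d = e
  /-- the faces are the cycles of `σ α`; they all have degree 4 -/
  faces : ∀ d, Function.minimalPeriod (σ * α) d = 4
  bipartite : ∃ c : Fin (4 * n) → Bool, ∀ d, c (σ d) = c d ∧ c (α d) ≠ c d
  /-- Euler's formula, `V = n + 2 - 2 g` -/
  euler : Nat.card (Quotient (Equiv.Perm.SameCycle.setoid σ)) + 2 * g = n + 2

/-- isomorphism of rooted maps -/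
def Iso {n g : ℕ} (x y : RQuad n g) : Prop :=
  ∃ w : Equiv.Perm (Fin (4 * n)),
    (∀ d, w (x.σ d) = y.σ (w d)) ∧ (∀ d, w (x.α d) = y.α (w d)) ∧ w x.root = y.root

/-- isomorphism is an equivalence relation -/
def isoSetoid (n g : ℕ) : Setoid (RQuad n g) where
  r := Iso
  iseqv :=
    { refl := fun _ => ⟨1, fun _ => rfl, fun _ => rfl, rfl⟩
      symm := by
        rintro x y ⟨w, h1, h2, h3⟩
        exact ⟨w.symm, fun d => by rw [Equiv.symm_apply_eq, h1, Equiv.apply_symm_apply],
          fun d => by rw [Equiv.symm_apply_eq, h2, Equiv.apply_symm_apply],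
          by rw [Equiv.symm_apply_eq, h3]⟩
      trans := by
        rintro x y z ⟨w, h1, h2, h3⟩ ⟨v, k1, k2, k3⟩
        exact ⟨v * w, fun d => by rw [Equiv.Perm.mul_apply, Equiv.Perm.mul_apply, h1, k1],
          fun d => by rw [Equiv.Perm.mul_apply, Equiv.Perm.mul_apply, h2, k2],
          by rw [Equiv.Perm.mul_apply, h3, k3]⟩ }

/-- `Q(n, g)`: the number of rooted bipartite quadrangulations of genus `g` with `n` faces, up to
isomorphism -/
noncomputable def Q (n g : ℕ) : ℕ := Nat.card (Quotient (isoSetoid n g))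

/-- the parametrisation of the limit -/
noncomputable def T (s : ℝ) : ℝ := Real.sqrt (12 * s * (s + 2)) / (1 - s ^ 2)

end Pool.H44.QEX
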