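import Pool.Agent.H63.Quad.All
import Pool.Agent.H44.QEX.Defs

set_option autoImplicit false

/-!
# The explicit form of the limit
-/

namespace Pool.H44.QEX

open Filter Topology MeasureTheory Finset
open Pool.Agent.H63.Quad

/-! ### Closed form of the implicit equation -/

theorem summ {x : ℝ} (h0 : 0 ≤ x) (h1 : x ≤ 1) :
    Summable fun i => Pool.Agent.H48.Quad.ee i * x ^ i := by
  refine Summable.of_nonneg_of_le (fun i => ?_) (fun i => ?_) Pool.Agent.H48.Quad.summable_ee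
  · have := Pool.Agent.H48.Quad.ee_pos i
    positivity
  · have h2 : x ^ i ≤ 1 := pow_le_one₀ h0 h1
    have := Pool.Agent.H48.Quad.ee_pos i
    nlinarith

theorem ee_one : Pool.Agent.H48.Quad.ee 1 = 1 / 2 := by
  rw [Pool.Agent.H48.Quad.ee_succ 0, Pool.Agent.H48.Quad.ee_zero]
  norm_num

/-- the functional equation of the series `∑ ee i x ^ i` -/
theorem funeq {x : ℝ} (h0 : 0 ≤ x) (h1 : x ≤ 1) :
    x ^ 2 * (∑' i, Pool.Agent.H48.Quad.ee i * x ^ i) ^ 2 =
      16 * (∑' i, Pool.Agent.H48.Quad.ee i * x ^ i) - 8 * x * (∑' i, Pool.Agent.H48.Quad.ee i * x ^ i)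
        - 16 := by
  have hS := summ h0 h1
  have hconv := Pool.Agent.H48.Quad.conv_ee
  have z0 := Pool.Agent.H48.Quad.ee_zero
  have z1 := ee_one
  generalize Pool.Agent.H48.Quad.ee = e at hS hconv z0 z1 ⊢
  have hn : Summable fun i => ‖e i * x ^ i‖ := hS.norm
  have hmul := tsum_mul_tsum_eq_tsum_sum_antidiagonal_of_summable_norm hn hn
  have hc : ∀ m, ∑ p ∈ antidiagonal m, (e p.1 * x ^ p.1) * (e p.2 * x ^ p.2) =
      (16 * e (m + 2) - 8 * e (m + 1)) * x ^ m := by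
    intro m
    rw [← hconv m, Finset.sum_mul]
    refine Finset.sum_congr rfl fun p hp => ?_
    rw [Finset.HasAntidiagonal.mem_antidiagonal] at hp
    rw [← hp, pow_add]
    ring
  simp_rw [hc] at hmul
  have s1 : Summable fun m => e (m + 1) * x ^ (m + 1) := (summable_nat_add_iff 1).2 hS
  have s2 : Summable fun m => e (m + 2) * x ^ (m + 2) := (summable_nat_add_iff 2).2 hS
  have t1 := hS.sum_add_tsum_nat_add 1
  have t2 := hS.sum_add_tsum_nat_add 2
  simp only [Finset.sum_range_succ, Finset.sum_range_zero] at t1 t2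
  rw [z0] at t1 t2
  rw [z1] at t2
  have hx2 : x ^ 2 * ∑' m, (16 * e (m + 2) - 8 * e (m + 1)) * x ^ m =
      16 * ∑' m, e (m + 2) * x ^ (m + 2) - 8 * x * ∑' m, e (m + 1) * x ^ (m + 1) := by
    rw [← tsum_mul_left, ← tsum_mul_left, ← tsum_mul_left, ← (s2.mul_left 16).tsum_sub (s1.mul_left (8 * x))]
    refine tsum_congr fun m => ?_
    ring
  rw [pow_two (∑' i, e i * x ^ i), hmul, hx2]
  linear_combination 16 * t2 - 8 * x * t1

theorem GG_closed {x : ℝ} (h0 : 0 ≤ x) (h1 : x ≤ 1) :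
    Pool.Agent.H48.Quad.GG x = x / 3 + 2 / 3 * (1 - Real.sqrt (1 - x)) := by
  set S := ∑' i, Pool.Agent.H48.Quad.ee i * x ^ i with hS
  have hf := funeq h0 h1
  rw [← hS] at hf
  have hS4 : S ≤ 4 := by
    rw [← Pool.Agent.H48.Quad.hasSum_ee.tsum_eq, hS]
    refine Summable.tsum_le_tsum (fun i => ?_) (summ h0 h1) Pool.Agent.H48.Quad.summable_ee
    have h2 : x ^ i ≤ 1 := pow_le_one₀ h0 h1
    have := Pool.Agent.H48.Quad.ee_pos i
    nlinarith
  have hS0 : 0 ≤ S := by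
    rw [hS]
    refine tsum_nonneg fun i => ?_
    have := Pool.Agent.H48.Quad.ee_pos i
    positivity
  have hG : Pool.Agent.H48.Quad.GG x = 2 / 3 * x + 1 / 12 * (x ^ 2 * S) := by
    have e : ∑' i, Pool.Agent.H48.Quad.ee i * x ^ (i + 2) = x ^ 2 * S := by
      rw [hS, ← tsum_mul_left]
      exact tsum_congr fun i => by ring
    rw [Pool.Agent.H48.Quad.GG, e]
  have hsq : Real.sqrt (1 - x) = (8 - 4 * x - x ^ 2 * S) / 8 := by
    rw [Real.sqrt_eq_iff_mul_self_eq (by linarith)]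
    · linear_combination (-(x ^ 2) / 64) * hf
    · have : x ^ 2 * S ≤ 4 * x ^ 2 := by nlinarith [sq_nonneg x]
      have : x ^ 2 ≤ x := by nlinarith
      linarith
  rw [hG, hsq]
  ring

/-! ### The parametrisation -/

theorem T_sq {s : ℝ} (h0 : 0 ≤ s) : T s ^ 2 = 12 * s * (s + 2) / (1 - s ^ 2) ^ 2 := by
  rw [T, div_pow, Real.sq_sqrt (by positivity)]

theorem T_nonneg {s : ℝ} (h0 : 0 ≤ s) (h1 : s < 1) : 0 ≤ T s :=
  div_nonneg (Real.sqrt_nonneg _) (by nlinarith)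

theorem T_pos {s : ℝ} (h0 : 0 < s) (h1 : s < 1) : 0 < T s :=
  div_pos (Real.sqrt_pos.2 (by positivity)) (by nlinarith)

theorem T_zero : T 0 = 0 := by simp [T]

theorem GG_s {s : ℝ} (h0 : 0 ≤ s) (h1 : s < 1) :
    Pool.Agent.H48.Quad.GG (1 - s ^ 2) = 1 - s * (s + 2) / 3 := by
  rw [GG_closed (by nlinarith) (by nlinarith), show 1 - (1 - s ^ 2) = s ^ 2 by ring,
    Real.sqrt_sq h0]
  ring

theorem XX_T {s : ℝ} (h0 : 0 ≤ s) (h1 : s < 1) : Pool.Agent.H48.Quad.XX (T s) = 1 - s ^ 2 := by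
  have hx : 0 < 1 - s ^ 2 := by nlinarith
  have e1 := Pool.Agent.H48.Quad.XX_eq (T s)
  have e2 : Pool.Agent.H48.Quad.GG (1 - s ^ 2) + T s ^ 2 * (1 - s ^ 2) ^ 2 / 36 = 1 := by
    rw [GG_s h0 h1, T_sq h0]
    field_simp
    ring
  have p1 := Pool.Agent.H48.Quad.XX_pos (T s)
  have p2 := Pool.Agent.H48.Quad.XX_le_one (T s)
  rcases lt_trichotomy (Pool.Agent.H48.Quad.XX (T s)) (1 - s ^ 2) with h | h | h
  · have h2 := Pool.Agent.H48.Quad.GG_slope p1.le h.le (by nlinarith)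
    have h3 : T s ^ 2 * Pool.Agent.H48.Quad.XX (T s) ^ 2 ≤ T s ^ 2 * (1 - s ^ 2) ^ 2 :=
      mul_le_mul_of_nonneg_left (pow_le_pow_left₀ p1.le h.le 2) (sq_nonneg _)
    nlinarith
  · exact h
  · have h2 := Pool.Agent.H48.Quad.GG_slope hx.le h.le p2
    have h3 : T s ^ 2 * (1 - s ^ 2) ^ 2 ≤ T s ^ 2 * Pool.Agent.H48.Quad.XX (T s) ^ 2 :=
      mul_le_mul_of_nonneg_left (pow_le_pow_left₀ hx.le h.le 2) (sq_nonneg _)
    nlinarith

theorem T_inj {s t : ℝ} (hs0 : 0 ≤ s) (hs1 : s < 1) (ht0 : 0 ≤ t) (ht1 : t < 1) (h : T s = T t) :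
    s = t := by
  have h1 := XX_T hs0 hs1
  rw [h, XX_T ht0 ht1] at h1
  have h2 : (s - t) * (s + t) = 0 := by linear_combination h1
  rcases mul_eq_zero.1 h2 with h3 | h3
  · linarith
  · have : s = 0 := by linarith
    have : t = 0 := by linarith
    linarith

theorem T_surj {τ : ℝ} (hτ : 0 < τ) : ∃ s, 0 < s ∧ s < 1 ∧ T s = τ := by
  have p1 := Pool.Agent.H48.Quad.XX_pos τ
  have p2 := Pool.Agent.H48.Quad.XX_lt_one hτ
  set s := Real.sqrt (1 - Pool.Agent.H48.Quad.XX τ) with hs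
  have hs0 : 0 < s := Real.sqrt_pos.2 (by linarith)
  have hss : s ^ 2 = 1 - Pool.Agent.H48.Quad.XX τ := Real.sq_sqrt (by linarith)
  have hs1 : s < 1 := by nlinarith
  refine ⟨s, hs0, hs1, ?_⟩
  have e1 := Pool.Agent.H48.Quad.XX_eq τ
  have hX : Pool.Agent.H48.Quad.XX τ = 1 - s ^ 2 := by linarith
  rw [hX, GG_s hs0.le hs1] at e1
  have hpos : 0 < 1 - s ^ 2 := by nlinarith
  have e2 : T s ^ 2 = τ ^ 2 := by
    rw [T_sq hs0.le, div_eq_iff (by positivity)]
    linear_combination -36 * e1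
  exact (sq_eq_sq₀ (T_pos hs0 hs1).le hτ.le).1 e2

/-! ### The integral -/

theorem continuousOn_T : ContinuousOn T (Set.Ico 0 1) := by
  unfold T
  refine ContinuousOn.div (by fun_prop) (by fun_prop) ?_
  intro s hs
  have : 0 < 1 - s ^ 2 := by nlinarith [hs.1, hs.2]
  exact this.ne'

theorem differentiableAt_T {s : ℝ} (h0 : 0 < s) (h1 : s < 1) : DifferentiableAt ℝ T s := by
  unfold T
  refine DifferentiableAt.div ?_ (by fun_prop) ?_
  · refine DifferentiableAt.sqrt (by fun_prop) ?_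
    positivity
  · have : 0 < 1 - s ^ 2 := by nlinarith
    exact this.ne'

open Pool.Agent.H82.Quad in
theorem hasDerivAt_LL (t : ℝ) : HasDerivAt (LL Pool.Agent.H48.Quad.AA0)
    (ff Pool.Agent.H48.Quad.AA0 t) t := by
  have hc := ff_cont aProps_AA0
  exact intervalIntegral.integral_hasDerivAt_right (hc.intervalIntegrable 0 t)
    (hc.stronglyMeasurableAtFilter _ _) hc.continuousAt

open Pool.Agent.H82.Quad in
theorem ff_T {s : ℝ} (h0 : 0 ≤ s) (h1 : s < 1) :
    ff Pool.Agent.H48.Quad.AA0 (T s) = -Real.log ((1 - s ^ 2) / 12) := by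
  rw [ff, Pool.Agent.H48.Quad.AA0, XX_T h0 h1]

open Pool.Agent.H82.Quad in
theorem integral_T {s : ℝ} (h0 : 0 < s) (h1 : s < 1) :
    ∫ v in (0 : ℝ)..s, v * T v / (1 - v ^ 2) =
      T s * (tt Pool.Agent.H48.Quad.AA0 (T s)) / 2 := by
  have hTs := T_pos h0 h1
  set A := Pool.Agent.H48.Quad.AA0 with hA
  set P : ℝ → ℝ := fun v => T v * (-Real.log ((1 - v ^ 2) / 12)) - LL A (T v) with hP
  have hcT : ContinuousOn T (Set.Icc 0 s) :=
    continuousOn_T.mono fun v hv => ⟨hv.1, lt_of_le_of_lt hv.2 h1⟩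
  have hlog : ContinuousOn (fun v : ℝ => -Real.log ((1 - v ^ 2) / 12)) (Set.Icc 0 s) := by
    refine ContinuousOn.neg (ContinuousOn.log (by fun_prop) ?_)
    intro v hv
    have : 0 < 1 - v ^ 2 := by nlinarith [hv.1, hv.2]
    positivity
  have hcP : ContinuousOn P (Set.Icc 0 s) :=
    (hcT.mul hlog).sub ((LL_cont aProps_AA0).comp_continuousOn hcT)
  have hder : ∀ v ∈ Set.Ioo 0 s, HasDerivAt P (T v * (2 * v / (1 - v ^ 2))) v := by
    intro v hv
    have hv1 : v < 1 := hv.2.trans h1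
    have hq : 0 < 1 - v ^ 2 := by nlinarith [hv.1]
    have d1 := (differentiableAt_T hv.1 hv1).hasDerivAt
    have d2 : HasDerivAt (fun v : ℝ => -Real.log ((1 - v ^ 2) / 12)) (2 * v / (1 - v ^ 2)) v := by
      have d3 : HasDerivAt (fun v : ℝ => (1 - v ^ 2) / 12) (-(2 * v) / 12) v := by
        have := ((hasDerivAt_pow 2 v).const_sub 1).div_const 12
        simpa using this
      have d4 := (d3.log (by positivity)).neg
      exact d4.congr_deriv (by field_simp)
    have d5 : HasDerivAt (fun v => LL A (T v)) (ff A (T v) * deriv T v) v :=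
      (hasDerivAt_LL (T v)).comp v d1
    have d6 := (d1.mul d2).sub d5
    refine d6.congr_deriv ?_
    rw [ff_T hv.1.le hv1]
    ring
  have hint : IntervalIntegrable (fun v => T v * (2 * v / (1 - v ^ 2))) volume 0 s := by
    refine ContinuousOn.intervalIntegrable ?_
    rw [Set.uIcc_of_le h0.le]
    refine hcT.mul (ContinuousOn.div (by fun_prop) (by fun_prop) ?_)
    intro v hv
    have : 0 < 1 - v ^ 2 := by nlinarith [hv.1, hv.2]
    exact this.ne'
  have hmain := intervalIntegral.integral_eq_sub_of_hasDerivAt_of_le h0.le hcP hder hint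
  have hP0 : P 0 = 0 := by
    simp only [hP, T_zero, zero_mul, zero_sub, LL_zero, neg_zero]
  have hPs : P s = T s * tt A (T s) := by
    simp only [hP, tt]
    rw [ff_T h0.le h1]
    field_simp
  rw [hP0, sub_zero, hPs] at hmain
  rw [← hmain, ← intervalIntegral.integral_div]
  refine intervalIntegral.integral_congr fun v _ => ?_
  show v * T v / (1 - v ^ 2) = T v * (2 * v / (1 - v ^ 2)) / 2
  ring

end Pool.H44.QEX
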