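import Pool.Agent.H63.Quad.All
import Pool.Agent.H44.QEX.Defs

set_option autoImplicit false

/-!
# The number of rooted maps up to isomorphism as a number of labelled pairs
-/

namespace Pool.H44.QEX

open Finset

theorem conj_app {X : Type} (w π : Equiv.Perm X) (d : X) : (w * π * w⁻¹) (w d) = w (π d) := by
  simp

theorem mp_conj {X : Type} (w π : Equiv.Perm X) (d : X) :
    Function.minimalPeriod (w * π * w⁻¹) (w d) = Function.minimalPeriod π d := by
  rw [Function.minimalPeriod_eq_minimalPeriod_iff]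
  intro k
  unfold Function.IsPeriodicPt Function.IsFixedPt
  rw [Equiv.Perm.iterate_eq_pow, Equiv.Perm.iterate_eq_pow, conj_pow, conj_app]
  exact w.injective.eq_iff

variable {n g : ℕ}

theorem card_conj {X : Type} [Fintype X] (w π : Equiv.Perm X) :
    Nat.card (Quotient (Equiv.Perm.SameCycle.setoid (w * π * w⁻¹))) =
      Nat.card (Quotient (Equiv.Perm.SameCycle.setoid π)) := by
  have h1 := Pool.Agent.H48.Quad.sum_recip (w * π * w⁻¹)
  have h2 := Pool.Agent.H48.Quad.sum_recip π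
  rw [← Equiv.sum_comp w] at h1
  simp_rw [mp_conj] at h1
  rw [h2] at h1
  have h3 : Pool.Agent.H63.Quad.orb π = Pool.Agent.H63.Quad.orb (w * π * w⁻¹) := by
    exact_mod_cast h1
  exact h3.symm

/-- the relabelled map -/
def mapQ (w : Equiv.Perm (Fin (4 * n))) (x : RQuad n g) : RQuad n g where
  σ := w * x.σ * w⁻¹
  α := w * x.α * w⁻¹
  root := w x.root
  edges := by
    intro d
    obtain ⟨e, rfl⟩ := w.surjective d
    rw [conj_app, conj_app]
    exact ⟨congrArg w (x.edges e).1, fun h => (x.edges e).2 (w.injective h)⟩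
  connected := by
    intro d e
    obtain ⟨a, rfl⟩ := w.surjective d
    obtain ⟨b, rfl⟩ := w.surjective e
    obtain ⟨u, hu, hab⟩ := x.connected a b
    refine ⟨w * u * w⁻¹, ?_, by rw [conj_app, hab]⟩
    have h1 : MulAut.conj w u ∈
        (Subgroup.closure ({x.σ, x.α} : Set (Equiv.Perm (Fin (4 * n))))).map
          (MulAut.conj w).toMonoidHom := ⟨u, hu, rfl⟩
    rw [MonoidHom.map_closure, Set.image_pair] at h1
    exact h1
  faces := by
    intro d
    obtain ⟨e, rfl⟩ := w.surjective d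
    have h : w * x.σ * w⁻¹ * (w * x.α * w⁻¹) = w * (x.σ * x.α) * w⁻¹ := by group
    rw [h, mp_conj]
    exact x.faces e
  bipartite := by
    obtain ⟨c, hc⟩ := x.bipartite
    refine ⟨fun d => c (w⁻¹ d), fun d => ?_⟩
    obtain ⟨e, rfl⟩ := w.surjective d
    have hw : ∀ a, w⁻¹ (w a) = a := fun a => Equiv.Perm.inv_eq_iff_eq.2 rfl
    show c (w⁻¹ ((w * x.σ * w⁻¹) (w e))) = c (w⁻¹ (w e)) ∧
      c (w⁻¹ ((w * x.α * w⁻¹) (w e))) ≠ c (w⁻¹ (w e))
    rw [conj_app, conj_app, hw, hw, hw]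
    exact hc e
  euler := by
    rw [card_conj]
    exact x.euler

theorem iso_mapQ (w : Equiv.Perm (Fin (4 * n))) (x : RQuad n g) : Iso x (mapQ w x) :=
  ⟨w, fun d => (conj_app w x.σ d).symm, fun d => (conj_app w x.α d).symm, rfl⟩

theorem ext_RQuad {x y : RQuad n g} (h1 : x.σ = y.σ) (h2 : x.α = y.α) (h3 : x.root = y.root) :
    x = y := by
  cases x
  cases y
  simp only at h1 h2 h3
  subst h1 h2 h3
  rfl

theorem mapQ_of_iso {x y : RQuad n g} (h : Iso x y) : ∃ w, mapQ w x = y := by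
  obtain ⟨w, h1, h2, h3⟩ := h
  refine ⟨w, ext_RQuad ?_ ?_ h3⟩
  · ext1 d
    obtain ⟨e, rfl⟩ := w.surjective d
    show (w * x.σ * w⁻¹) (w e) = _
    rw [conj_app, h1]
  · ext1 d
    obtain ⟨e, rfl⟩ := w.surjective d
    show (w * x.α * w⁻¹) (w e) = _
    rw [conj_app, h2]

theorem mapQ_injective (x : RQuad n g) : Function.Injective fun w => mapQ w x := by
  intro w v h
  have h1 : w * x.σ * w⁻¹ = v * x.σ * v⁻¹ := congrArg RQuad.σ h
  have h2 : w * x.α * w⁻¹ = v * x.α * v⁻¹ := congrArg RQuad.α h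
  have h3 : w x.root = v x.root := congrArg RQuad.root h
  have hc : Subgroup.closure ({x.σ, x.α} : Set (Equiv.Perm (Fin (4 * n)))) ≤
      Subgroup.centralizer {v⁻¹ * w} := by
    rw [Subgroup.closure_le]
    intro u hu
    rw [SetLike.mem_coe, Subgroup.mem_centralizer_singleton_iff]
    rcases hu with rfl | hu
    · have this : v⁻¹ * (w * x.σ * w⁻¹) * w = v⁻¹ * (v * x.σ * v⁻¹) * w := by rw [h1]
      calc x.σ * (v⁻¹ * w) = v⁻¹ * (v * x.σ * v⁻¹) * w := by group
        _ = v⁻¹ * (w * x.σ * w⁻¹) * w := this.symm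
        _ = v⁻¹ * w * x.σ := by group
    · rw [Set.mem_singleton_iff] at hu
      subst hu
      have this : v⁻¹ * (w * x.α * w⁻¹) * w = v⁻¹ * (v * x.α * v⁻¹) * w := by rw [h2]
      calc x.α * (v⁻¹ * w) = v⁻¹ * (v * x.α * v⁻¹) * w := by group
        _ = v⁻¹ * (w * x.α * w⁻¹) * w := this.symm
        _ = v⁻¹ * w * x.α := by group
  have h4 : (v⁻¹ * w) x.root = x.root := by
    rw [Equiv.Perm.mul_apply, h3]
    exact Equiv.Perm.inv_eq_iff_eq.2 rfl
  have h5 : v⁻¹ * w = 1 := by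
    ext1 e
    obtain ⟨u, hu, hue⟩ := x.connected x.root e
    have h6 := Subgroup.mem_centralizer_singleton_iff.1 (hc hu)
    have h7 : (v⁻¹ * w) (u x.root) = u ((v⁻¹ * w) x.root) := by
      rw [← Equiv.Perm.mul_apply, ← Equiv.Perm.mul_apply, h6]
    rw [← hue, h7, h4]
    rfl
  exact (inv_mul_eq_one.1 h5).symm

/-- every class has `(4 n)!` elements -/
noncomputable def fiberEquiv (q : Quotient (isoSetoid n g)) :
    {x : RQuad n g // Quotient.mk (isoSetoid n g) x = q} ≃ Equiv.Perm (Fin (4 * n)) :=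
  (Equiv.ofBijective
    (fun w : Equiv.Perm (Fin (4 * n)) =>
      (⟨mapQ w q.out, by
        conv_rhs => rw [← Quotient.out_eq q]
        exact (Quotient.sound (iso_mapQ w q.out : (isoSetoid n g).r _ _)).symm⟩ :
        {x : RQuad n g // Quotient.mk (isoSetoid n g) x = q}))
    ⟨fun w v h => mapQ_injective q.out (congrArg Subtype.val h), fun y => by
      have h : Quotient.mk (isoSetoid n g) q.out = Quotient.mk (isoSetoid n g) y.1 := by
        rw [Quotient.out_eq, y.2]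
      obtain ⟨w, hw⟩ := mapQ_of_iso (Quotient.exact h)
      exact ⟨w, Subtype.ext hw⟩⟩).symm

theorem card_RQuad (n g : ℕ) : Nat.card (RQuad n g) = Q n g * (4 * n).factorial := by
  have e : RQuad n g ≃ Quotient (isoSetoid n g) × Equiv.Perm (Fin (4 * n)) :=
    (Equiv.sigmaFiberEquiv (Quotient.mk (isoSetoid n g))).symm.trans
      ((Equiv.sigmaCongrRight fiberEquiv).trans (Equiv.sigmaEquivProd _ _))
  rw [Nat.card_congr e, Nat.card_prod, Q]
  congr 1
  rw [Nat.card_eq_fintype_card, Fintype.card_perm, Fintype.card_fin]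

/-- the set of the frozen statement -/
def Fz (n g : ℕ) : Set (Equiv.Perm (Fin (4 * n)) × Equiv.Perm (Fin (4 * n))) :=
  {p | (∀ d, p.2 (p.2 d) = d ∧ p.2 d ≠ d) ∧
    (∀ d e, ∃ w ∈ Subgroup.closure ({p.1, p.2} : Set (Equiv.Perm (Fin (4 * n)))), w d = e) ∧
    (∀ d, Function.minimalPeriod (p.1 * p.2) d = 4) ∧
    (∃ c : Fin (4 * n) → Bool, ∀ d, c (p.1 d) = c d ∧ c (p.2 d) ≠ c d) ∧
    (∑ d, (1 : ℚ) / (Function.minimalPeriod p.1 d : ℚ)) = (n : ℚ) + 2 - 2 * (g : ℚ)}

theorem euler_iff (σ : Equiv.Perm (Fin (4 * n))) (g : ℕ) :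
    Nat.card (Quotient (Equiv.Perm.SameCycle.setoid σ)) + 2 * g = n + 2 ↔
      (∑ d, (1 : ℚ) / (Function.minimalPeriod σ d : ℚ)) = (n : ℚ) + 2 - 2 * (g : ℚ) := by
  rw [Pool.Agent.H48.Quad.sum_recip]
  show Pool.Agent.H63.Quad.orb σ + 2 * g = n + 2 ↔ _
  constructor
  · intro h
    have h2 : (Pool.Agent.H63.Quad.orb σ : ℚ) + 2 * g = n + 2 := by exact_mod_cast h
    linarith
  · intro h
    have h2 : (Pool.Agent.H63.Quad.orb σ : ℚ) + 2 * g = n + 2 := by linarith
    exact_mod_cast h2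

theorem card_RQuad' (n g : ℕ) : Nat.card (RQuad n g) = (Fz n g).ncard * (4 * n) := by
  have e : RQuad n g ≃ Fz n g × Fin (4 * n) :=
    { toFun := fun x => (⟨(x.σ, x.α), x.edges, x.connected, x.faces, x.bipartite,
        (euler_iff x.σ g).1 x.euler⟩, x.root)
      invFun := fun y => ⟨y.1.1.1, y.1.1.2, y.2, y.1.2.1, y.1.2.2.1, y.1.2.2.2.1, y.1.2.2.2.2.1,
        (euler_iff y.1.1.1 g).2 y.1.2.2.2.2.2⟩
      left_inv := fun x => rfl
      right_inv := fun y => rfl }
  rw [Nat.card_congr e, Nat.card_prod, Nat.card_fin]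
  rfl

theorem Q_eq (n g : ℕ) (hn : 1 ≤ n) :
    (Q n g : ℝ) = ((Fz n g).ncard : ℝ) / ((4 * n - 1).factorial : ℝ) := by
  have h1 := card_RQuad n g
  rw [card_RQuad' n g] at h1
  have h2 : (4 * n).factorial = 4 * n * (4 * n - 1).factorial :=
    (Nat.mul_factorial_pred (by omega)).symm
  rw [h2] at h1
  have h3 : (Fz n g).ncard = Q n g * (4 * n - 1).factorial := by
    have h4 : 0 < 4 * n := by omega
    apply Nat.eq_of_mul_eq_mul_right h4
    rw [h1]
    ring
  rw [h3]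
  have h5 : ((4 * n - 1).factorial : ℝ) ≠ 0 := by exact_mod_cast (Nat.factorial_pos _).ne'
  push_cast
  field_simp

end Pool.H44.QEX
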