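import Pool.Agent.H44.QEX.Anal

set_option autoImplicit false

/-!
# The limit for the coefficients of the Carrell-Chapuy polynomials, explicit form
-/

namespace Pool.H44.QEX

open Filter Topology Real MeasureTheory Pool.Agent.H63.Quad Pool.Agent.H82.Quad

/-- `partB3` of helper82 for every `τ` with `tt aa τ = 2 θ` (same proof). -/
theorem modeConc {aa : ℝ → ℝ} (hR : AProps aa) (hL : LimA aa) (hLB : LB) (θ τ : ℝ) (hτ : 0 < τ)
    (hθ : tt aa τ = 2 * θ) : ModeConc θ τ := by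
  intro N hN ε hε
  have hNinf := tendsto_N τ hτ N hN
  have hNinf' : Tendsto (fun n => (N n : ℝ)) atTop atTop := tendsto_natCast_atTop_atTop.comp hNinf
  -- upper side
  have hup : ∃ c, 0 < c ∧ ∀ᶠ n : ℕ in atTop, ∀ g : ℕ, (θ + ε) * n ≤ g →
      wN (N n) n g ≤ exp (-c * n) := by
    obtain ⟨κ, hκ0, hκ1, hκ⟩ := gain_upper hR τ hτ ε hε
    have hN' : Tendsto (fun n : ℕ => ((⌈κ * N n⌉₊ : ℕ) : ℝ) / (N n : ℝ)) atTop (𝓝 κ) :=
      (tendsto_nat_ceil_mul_div_atTop hκ0.le).comp hNinf'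
    obtain ⟨c, hc, hcn⟩ := side hR hL hLB τ hτ N (fun n => ⌈κ * N n⌉₊) hN κ hκ0 hN'
      (tt aa τ + 2 * ε) hκ
    refine ⟨c, hc, ?_⟩
    filter_upwards [hcn, hN'.eventually_lt_const hκ1, hN'.eventually_const_lt hκ0]
      with n hn hlt hgt g hg
    obtain ⟨hn1, hn2, hn3⟩ := hn
    apply log_wN_le (N n) ⌈κ * N n⌉₊ n g hn1 hn2
    refine le_trans ?_ hn3
    have hlogneg : log (((⌈κ * N n⌉₊ : ℕ) : ℝ) / (N n : ℝ)) ≤ 0 :=
      log_nonpos hgt.le hlt.le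
    have : 2 * (g : ℝ) * log (((⌈κ * N n⌉₊ : ℕ) : ℝ) / (N n : ℝ))
        ≤ (tt aa τ + 2 * ε) * n * log (((⌈κ * N n⌉₊ : ℕ) : ℝ) / (N n : ℝ)) := by
      apply mul_le_mul_of_nonpos_right _ hlogneg
      rw [hθ]
      linarith
    linarith
  -- lower side
  have hlow : ∃ c, 0 < c ∧ ∀ᶠ n : ℕ in atTop, ∀ g : ℕ, (g : ℝ) ≤ (θ - ε) * n →
      wN (N n) n g ≤ exp (-c * n) := by
    by_cases hcase : 0 ≤ tt aa τ - 2 * ε
    · obtain ⟨κ, hκ1, hκ⟩ := gain_lower hR τ hτ ε hε hcase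
      have hκ0 : 0 < κ := by linarith
      have hN' : Tendsto (fun n : ℕ => ((⌈κ * N n⌉₊ : ℕ) : ℝ) / (N n : ℝ)) atTop (𝓝 κ) :=
        (tendsto_nat_ceil_mul_div_atTop hκ0.le).comp hNinf'
      obtain ⟨c, hc, hcn⟩ := side hR hL hLB τ hτ N (fun n => ⌈κ * N n⌉₊) hN κ hκ0 hN'
        (tt aa τ - 2 * ε) hκ
      refine ⟨c, hc, ?_⟩
      filter_upwards [hcn, hN'.eventually_const_lt hκ1] with n hn hgt g hg
      obtain ⟨hn1, hn2, hn3⟩ := hn
      apply log_wN_le (N n) ⌈κ * N n⌉₊ n g hn1 hn2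
      refine le_trans ?_ hn3
      have hlogpos : 0 ≤ log (((⌈κ * N n⌉₊ : ℕ) : ℝ) / (N n : ℝ)) :=
        log_nonneg hgt.le
      have : 2 * (g : ℝ) * log (((⌈κ * N n⌉₊ : ℕ) : ℝ) / (N n : ℝ))
          ≤ (tt aa τ - 2 * ε) * n * log (((⌈κ * N n⌉₊ : ℕ) : ℝ) / (N n : ℝ)) := by
        apply mul_le_mul_of_nonneg_right _ hlogpos
        rw [hθ]
        linarith
      linarith
    · refine ⟨1, one_pos, ?_⟩
      filter_upwards [eventually_gt_atTop 0] with n hn g hg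
      exfalso
      push Not at hcase
      rw [hθ] at hcase
      have hn' : (0 : ℝ) < n := by exact_mod_cast hn
      have h3 : (θ - ε) * n < 0 := mul_neg_of_neg_of_pos (by linarith) hn'
      have h4 : (0 : ℝ) ≤ g := Nat.cast_nonneg g
      linarith
  obtain ⟨c1, hc1, hu⟩ := hup
  obtain ⟨c2, hc2, hl⟩ := hlow
  refine ⟨min c1 c2, lt_min hc1 hc2, ?_⟩
  filter_upwards [hu, hl] with n hun hln g hg
  have hn0 : (0 : ℝ) ≤ n := Nat.cast_nonneg n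
  rcases le_abs.mp hg with h | h
  · refine le_trans (hun g (by linarith)) (exp_le_exp.mpr ?_)
    have := mul_le_mul_of_nonneg_right (min_le_left c1 c2) hn0
    linarith
  · refine le_trans (hln g (by linarith)) (exp_le_exp.mpr ?_)
    have := mul_le_mul_of_nonneg_right (min_le_right c1 c2) hn0
    linarith

/-- the condition on `s` -/
def Cond (θ s : ℝ) : Prop := 0 < s ∧ s < 1 ∧ θ * T s = ∫ v in (0 : ℝ)..s, v * T v / (1 - v ^ 2)

theorem cond_iff {θ s : ℝ} (h0 : 0 < s) (h1 : s < 1) :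
    (θ * T s = ∫ v in (0 : ℝ)..s, v * T v / (1 - v ^ 2)) ↔
      tt Pool.Agent.H48.Quad.AA0 (T s) = 2 * θ := by
  rw [integral_T h0 h1]
  have hT := T_pos h0 h1
  constructor
  · intro h
    have h2 : T s * (tt Pool.Agent.H48.Quad.AA0 (T s) - 2 * θ) = 0 := by linear_combination -2 * h
    rcases mul_eq_zero.1 h2 with h3 | h3
    · exact absurd h3 hT.ne'
    · linarith
  · intro h
    rw [h]
    ring

theorem coeff_limit {θ s : ℝ} (h0 : 0 < θ) (hs : Cond θ s) (gs : ℕ → ℕ)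
    (hgs : Tendsto (fun n : ℕ => (gs n : ℝ) / n) atTop (𝓝 θ)) :
    Tendsto (fun n : ℕ => (Qp n).coeff (gs n) / ((n : ℝ) ^ 2 * (Qp n).coeff (gs n - 1))) atTop
      (𝓝 (1 / T s ^ 2)) := by
  obtain ⟨hs0, hs1, hs2⟩ := hs
  have hM : ModeConc θ (T s) := modeConc aProps_AA0 Pool.Agent.H48.Quad.limA Pool.Agent.H48.Quad.lb
    θ (T s) (T_pos hs0 hs1) ((cond_iff hs0 hs1).1 hs2)
  have hF := Pool.Agent.H36.Quad.free_UU Pool.Agent.H48.Quad.ed Pool.Agent.H48.Quad.lb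
  exact Pool.Agent.H51.Quad.final (Pool.Agent.H51.Quad.ALC_of_Free _ hF) θ (T s) h0
    (T_pos hs0 hs1) hM gs hgs

theorem exists_cond {θ : ℝ} (h0 : 0 < θ) (h1 : θ < 1 / 2) : ∃ s, Cond θ s := by
  obtain ⟨τ, hτ, h⟩ := exists_tau aProps_AA0 θ h0 h1
  obtain ⟨s, hs0, hs1, rfl⟩ := T_surj hτ
  exact ⟨s, hs0, hs1, (cond_iff hs0 hs1).2 h⟩

theorem cond_unique {θ s t : ℝ} (h0 : 0 < θ) (hs : Cond θ s) (ht : Cond θ t) : s = t := by
  have hg : Tendsto (fun n : ℕ => ((⌊θ * n⌋₊ : ℕ) : ℝ) / n) atTop (𝓝 θ) :=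
    (tendsto_nat_floor_mul_div_atTop h0.le).comp tendsto_natCast_atTop_atTop
  have h := tendsto_nhds_unique (coeff_limit h0 hs _ hg) (coeff_limit h0 ht _ hg)
  have p1 := T_pos hs.1 hs.2.1
  have p2 := T_pos ht.1 ht.2.1
  have h2 : T s ^ 2 = T t ^ 2 := by
    have h3 := congrArg (fun x : ℝ => 1 / x) h
    simpa using h3
  exact T_inj hs.1.le hs.2.1 ht.1.le ht.2.1 ((sq_eq_sq₀ p1.le p2.le).1 h2)

end Pool.H44.QEX
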