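import Pool.Agent.H44.QEX.Comb
import Pool.Agent.H44.QEX.Lim

set_option autoImplicit false

/-!
# The explicit limit of the ratio
-/

namespace Pool.H44.QEX

open Filter Topology Pool.Agent.H63.Quad

theorem main (θ : ℝ) (h0 : 0 < θ) (h1 : θ < 1 / 2) :
    (∃! s : ℝ, 0 < s ∧ s < 1 ∧ θ * T s = ∫ v in (0 : ℝ)..s, v * T v / (1 - v ^ 2)) ∧
    ∀ s : ℝ, 0 < s → s < 1 → θ * T s = ∫ v in (0 : ℝ)..s, v * T v / (1 - v ^ 2) →
      ∀ g : ℕ → ℕ, Tendsto (fun n : ℕ => (g n : ℝ) / n) atTop (𝓝 θ) →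
        Tendsto (fun n : ℕ => (Q n (g n) : ℝ) / ((n : ℝ) ^ 2 * (Q n (g n - 1) : ℝ))) atTop
          (𝓝 (1 / T s ^ 2)) := by
  refine ⟨?_, ?_⟩
  · obtain ⟨s, hs⟩ := exists_cond h0 h1
    exact ⟨s, hs, fun t ht => cond_unique h0 ht hs⟩
  · intro s hs0 hs1 hs gs hgs
    refine (coeff_limit h0 ⟨hs0, hs1, hs⟩ gs hgs).congr' ?_
    have h2 : ∀ᶠ n : ℕ in atTop, (gs n : ℝ) / n < 1 / 2 := hgs.eventually_lt_const h1
    filter_upwards [h2, eventually_ge_atTop 1] with n hn hn1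
    have hn' : (0 : ℝ) < n := by exact_mod_cast hn1
    rw [div_lt_iff₀ hn'] at hn
    have h3 : 2 * gs n ≤ n := by
      have : 2 * (gs n : ℝ) ≤ n := by linarith
      exact_mod_cast this
    have e1 : (Q n (gs n) : ℝ) = (Qp n).coeff (gs n) := by
      rw [Q_eq n _ hn1]
      exact frozen_count n hn1 (gs n) h3
    have e2 : (Q n (gs n - 1) : ℝ) = (Qp n).coeff (gs n - 1) := by
      rw [Q_eq n _ hn1]
      exact frozen_count n hn1 (gs n - 1) (by omega)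
    rw [e1, e2]

end Pool.H44.QEX
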